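import Pool.Agent.helper58.BR.SpecN

/-!
# Row RKP of project BR (MP_baa4d7_al): the order of a `p'`-group of automorphisms
-/

set_option autoImplicit false

namespace Pool.Agent.BR

open Pool.Agent.helper58.DC Pool.Agent.DI Pool.Agent.GR Pool.Agent.OB Pool.Agent.DR Pool.Agent.FI Pool.Agent.FI3 Pool.Agent.FI4 Pool.Agent.LE

theorem RKP_idx {A : Type} [CommGroup A] [Finite A] (q : ℕ) :
    (powMonoidHom q : A →* A).range.index = Nat.card (powMonoidHom q : A →* A).ker := by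
  have h1 := ALL_idx (A := A) q
  have h2 := Subgroup.card_mul_index (powMonoidHom q : A →* A).range
  rw [← h1, mul_comm] at h2
  exact Nat.eq_of_mul_eq_mul_right Nat.card_pos h2

theorem RKP_card {A : Type} [CommGroup A] [Finite A] {p : ℕ} (hp : p.Prime) (hA : IsPGroup p A) (r : ℕ)
    (hr : Nat.card (powMonoidHom p : A →* A).ker ≤ p ^ r)
    (P : Subgroup (MulAut A)) (hP : ¬ p ∣ Nat.card P) : Nat.card P ≤ ALL_c p r := by
  have hpf : Fact p.Prime := ⟨hp⟩
  have hle : (powMonoidHom p : A →* A).range ≤ ALL_F p P := by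
    rintro _ ⟨x, rfl⟩ φ _
    exact ⟨ALL_del φ x, by rw [powMonoidHom_apply, map_pow]⟩
  have hidx := RKP_idx (A := A) p
  obtain ⟨k, hk⟩ := IsPGroup.iff_card.1 hA
  obtain ⟨a, -, ha⟩ := (Nat.dvd_prime_pow hp).1
    ((Subgroup.card_subgroup_dvd_card (powMonoidHom p : A →* A).ker).trans (dvd_of_eq hk))
  rw [ha] at hidx hr
  have har : a ≤ r := (Nat.pow_le_pow_iff_right hp.one_lt).1 hr
  obtain ⟨d, hd, hdi⟩ := (Nat.dvd_prime_pow hp).1 ((Subgroup.index_dvd_of_le hle).trans (dvd_of_eq hidx))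
  exact (ALL_ord hp hA d P hP hdi).trans (ALL_c_mono hp (hd.trans har))

theorem RKP_e (p r : ℕ) : ALL_e p r = p ^ (r * (r + 1) / 2) := by
  have h : ∀ n : ℕ, 2 * (∑ i ∈ Finset.range n, (i + 1)) = n * (n + 1) := by
    intro n
    induction n with
    | zero => simp
    | succ m ih =>
      rw [Finset.sum_range_succ, mul_add, ih]
      ring
  rw [ALL_e, Finset.prod_pow_eq_pow_sum, ← h r, Nat.mul_div_cancel_left _ (by norm_num : 0 < 2)]

theorem RKP_lt {p : ℕ} (hp : p.Prime) {r : ℕ} (hr : 1 ≤ r) : ALL_c p r < ALL_e p r := by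
  induction r, hr using Nat.le_induction with
  | base =>
    rw [ALL_c, ALL_e, Finset.prod_range_one, Finset.prod_range_one]
    have : 0 < p ^ (0 + 1) := pow_pos hp.pos _
    omega
  | succ n _ ih =>
    rw [ALL_c, ALL_e] at ih
    rw [ALL_c, ALL_e, Finset.prod_range_succ, Finset.prod_range_succ]
    have h1 : 0 < p ^ (n + 1) := pow_pos hp.pos _
    calc (∏ i ∈ Finset.range n, (p ^ (i + 1) - 1)) * (p ^ (n + 1) - 1)
        ≤ (∏ i ∈ Finset.range n, (p ^ (i + 1) - 1)) * p ^ (n + 1) := Nat.mul_le_mul_left _ (Nat.sub_le _ _)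
      _ < (∏ i ∈ Finset.range n, p ^ (i + 1)) * p ^ (n + 1) := Nat.mul_lt_mul_of_pos_right ih h1

/-- Row RKP. -/
theorem RKP : RKP_stmt := by
  intro p r hp hr A _ _ hA hk
  refine ⟨?_, ?_⟩
  · intro P hP
    rw [← RKP_e]
    exact (RKP_card hp hA r hk P hP).trans_lt (RKP_lt hp hr)
  · intro i
    rw [RKP_idx]
    refine (ALL_om p i).trans ?_
    rw [pow_mul]
    exact Nat.pow_le_pow_left hk i

end Pool.Agent.BR
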